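import Mathlib

/-!
MP_2fe121_gt. There is an embedding of the closed 4-ball into `S² × ℝ²` whose composition with the
projection to `S²` is an open map.

Idea: identify `S²` with the Riemann sphere `ℂ ∪ {∞}` and put
`D = {(y, v) : |v| ≤ 2, |y - v| ≥ 1}`, with `y` in the sphere and `v` in the plane. In the
coordinates `u = y - v`, `v` this is the product of the closed discs `{|u| ≥ 1} ∪ {∞}` and
`{|v| ≤ 2}`, hence a 4-ball. The fibre over `y` is the disc `|v| ≤ 2` minus the open unit disc
around `y`, which depends continuously on `y` because `1 < 2`.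
-/

open Set Filter Topology
open scoped OnePoint

namespace Pool.Agent.Results.MP_2fe121_gt.OpenEmbedding

/-- inversion, as a map from the plane to the sphere -/
noncomputable def j (s : ℂ) : OnePoint ℂ := if s = 0 then ∞ else ((s⁻¹ : ℂ) : OnePoint ℂ)

theorem j_zero : j 0 = ∞ := by simp [j]

theorem j_ne {s : ℂ} (h : s ≠ 0) : j s = ((s⁻¹ : ℂ) : OnePoint ℂ) := by simp [j, h]

theorem tendsto_inv_coe : Tendsto (fun s : ℂ => ((s⁻¹ : ℂ) : OnePoint ℂ)) (𝓝[≠] 0) (𝓝 ∞) := by
  have h1 : Tendsto (fun s : ℂ => s⁻¹) (𝓝[≠] 0) (coclosedCompact ℂ) := by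
    rw [coclosedCompact_eq_cocompact, ← Metric.cobounded_eq_cocompact]
    exact tendsto_inv₀_nhdsNE_zero
  exact OnePoint.tendsto_coe_infty.comp h1

theorem continuous_j : Continuous j := by
  rw [continuous_iff_continuousAt]
  intro s
  by_cases hs : s = 0
  · subst hs
    rw [continuousAt_iff_punctured_nhds, j_zero]
    refine tendsto_inv_coe.congr' ?_
    filter_upwards [self_mem_nhdsWithin] with s hs
    exact (j_ne hs).symm
  · have h1 : ContinuousAt (fun s : ℂ => ((s⁻¹ : ℂ) : OnePoint ℂ)) s :=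
      OnePoint.continuous_coe.continuousAt.comp (continuousAt_inv₀ hs)
    refine h1.congr ?_
    filter_upwards [isOpen_ne.mem_nhds hs] with t ht
    exact (j_ne ht).symm

/-- inversion of the sphere -/
noncomputable def I (x : OnePoint ℂ) : OnePoint ℂ := x.elim ((0 : ℂ) : OnePoint ℂ) j

theorem I_infty : I ∞ = ((0 : ℂ) : OnePoint ℂ) := rfl

theorem I_coe (s : ℂ) : I (s : OnePoint ℂ) = j s := rfl

theorem I_I (x : OnePoint ℂ) : I (I x) = x := by
  induction x using OnePoint.rec with
  | infty => rw [I_infty, I_coe, j_zero]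
  | coe s =>
    rw [I_coe]
    by_cases hs : s = 0
    · subst hs
      rw [j_zero, I_infty]
    · rw [j_ne hs, I_coe, j_ne (inv_ne_zero hs), inv_inv]

theorem continuous_I : Continuous I := by
  rw [OnePoint.continuous_iff]
  refine ⟨?_, ?_⟩
  · rw [I_infty, coclosedCompact_eq_cocompact, ← Metric.cobounded_eq_cocompact]
    have h1 : Tendsto (fun s : ℂ => ((s⁻¹ : ℂ) : OnePoint ℂ)) (Bornology.cobounded ℂ)
        (𝓝 ((0 : ℂ) : OnePoint ℂ)) :=
      (OnePoint.continuous_coe.tendsto 0).comp tendsto_inv₀_cobounded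
    refine h1.congr' ?_
    have h2 : ∀ᶠ s : ℂ in Bornology.cobounded ℂ, s ≠ 0 := by
      have : ({(0 : ℂ)}ᶜ : Set ℂ) ∈ Bornology.cobounded ℂ := Bornology.isBounded_singleton
      filter_upwards [this] with s hs
      simpa using hs
    filter_upwards [h2] with s hs
    rw [I_coe, j_ne hs]
  · exact continuous_j

/-- inversion of the sphere, as a homeomorphism -/
noncomputable def IH : OnePoint ℂ ≃ₜ OnePoint ℂ where
  toFun := I
  invFun := I
  left_inv := I_I
  right_inv := I_I
  continuous_toFun := continuous_I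
  continuous_invFun := continuous_I

/-- translation of the sphere by `v` -/
noncomputable def T (v : ℂ) : OnePoint ℂ ≃ₜ OnePoint ℂ := (Homeomorph.addRight v).onePointCongr

theorem T_infty (v : ℂ) : T v ∞ = ∞ := rfl

theorem T_coe (v s : ℂ) : T v (s : OnePoint ℂ) = ((s + v : ℂ) : OnePoint ℂ) := rfl

/-- the map `(s, v) ↦ 1/s + v` to the sphere -/
noncomputable def q (p : ℂ × ℂ) : OnePoint ℂ := T p.2 (j p.1)

theorem q_zero (v : ℂ) : q (0, v) = ∞ := by
  unfold q
  rw [j_zero, T_infty]

theorem q_ne {s : ℂ} (hs : s ≠ 0) (v : ℂ) : q (s, v) = ((s⁻¹ + v : ℂ) : OnePoint ℂ) := by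
  unfold q
  rw [j_ne hs, T_coe]

theorem continuous_q : Continuous q := by
  rw [continuous_iff_continuousAt]
  rintro ⟨s, v⟩
  by_cases hs : s = 0
  · subst hs
    unfold ContinuousAt
    rw [q_zero, tendsto_def]
    intro W hW
    have hW' : ((↑) : ℂ → OnePoint ℂ) ⁻¹' W ∈ Bornology.cobounded ℂ := by
      rw [Metric.cobounded_eq_cocompact, ← coclosedCompact_eq_cocompact]
      exact OnePoint.tendsto_coe_infty hW
    obtain ⟨R, hR0, hR⟩ := (Metric.hasBasis_cobounded_compl_closedBall (0 : ℂ)).mem_iff.1 hW'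
    have hnb : ∀ᶠ p : ℂ × ℂ in 𝓝 (0, v), ‖p.1‖ * (|R| + ‖v‖ + 2) < 1 ∧ ‖p.2‖ < ‖v‖ + 1 := by
      have c1 : ContinuousAt (fun p : ℂ × ℂ => ‖p.1‖ * (|R| + ‖v‖ + 2)) (0, v) := by fun_prop
      have c2 : ContinuousAt (fun p : ℂ × ℂ => ‖p.2‖) (0, v) := by fun_prop
      have e1 := c1.eventually_lt (continuousAt_const (y := (1 : ℝ))) (by simp)
      have e2 := c2.eventually_lt (continuousAt_const (y := ‖v‖ + 1)) (by simp)
      exact e1.and e2
    filter_upwards [hnb] with p hp
    obtain ⟨s', v'⟩ := p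
    simp only at hp
    rw [mem_preimage]
    by_cases hs' : s' = 0
    · rw [hs', q_zero]
      exact mem_of_mem_nhds hW
    · rw [q_ne hs']
      apply hR
      rw [mem_compl_iff, mem_closedBall_zero_iff, not_le]
      have hpos : 0 < ‖s'‖ := norm_pos_iff.2 hs'
      have h3 : |R| + ‖v‖ + 2 < ‖s'⁻¹‖ := by
        rw [norm_inv, lt_inv_comm₀ (by positivity) hpos]
        rw [← one_div, lt_div_iff₀ (by positivity)]
        exact hp.1
      have h4 : ‖s'⁻¹‖ ≤ ‖s'⁻¹ + v'‖ + ‖v'‖ := by
        calc ‖s'⁻¹‖ = ‖(s'⁻¹ + v') - v'‖ := by rw [add_sub_cancel_right]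
          _ ≤ _ := norm_sub_le _ _
      have := le_abs_self R
      linarith [hp.2]
  · have h1 : ContinuousAt (fun p : ℂ × ℂ => ((p.1⁻¹ + p.2 : ℂ) : OnePoint ℂ)) (s, v) := by
      apply OnePoint.continuous_coe.continuousAt.comp
      exact (ContinuousAt.inv₀ continuousAt_fst hs).add continuousAt_snd
    refine h1.congr ?_
    have : ∀ᶠ p : ℂ × ℂ in 𝓝 (s, v), p.1 ≠ 0 :=
      continuousAt_fst.eventually_ne hs
    filter_upwards [this] with p hp
    exact (q_ne hp p.2).symm

/-- the product of the two discs -/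
def Dom : Set (ℂ × ℂ) := Metric.closedBall (0 : ℂ) 1 ×ˢ Metric.closedBall (0 : ℂ) 2

/-- The map is open at the points with `‖s‖ < 1`. -/
theorem open_good {p : ℂ × ℂ} (h1 : ‖p.1‖ < 1) (h2 : ‖p.2‖ ≤ 2) {U : Set (ℂ × ℂ)}
    (hU : U ∈ 𝓝 p) : q '' (U ∩ Dom) ∈ 𝓝 (q p) := by
  have hV : {s : ℂ | (s, p.2) ∈ U ∧ ‖s‖ < 1} ∈ 𝓝 p.1 := by
    have c : ContinuousAt (fun s : ℂ => (s, p.2)) p.1 := by fun_prop
    have e1 : ∀ᶠ s in 𝓝 p.1, (s, p.2) ∈ U := c.preimage_mem_nhds hU
    have c2 : ContinuousAt (fun s : ℂ => ‖s‖) p.1 := by fun_prop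
    exact e1.and (c2.eventually_lt (continuousAt_const (y := (1 : ℝ))) h1)
  have hopen : IsOpenMap (fun s : ℂ => T p.2 (IH (s : OnePoint ℂ))) :=
    (T p.2).isOpenMap.comp (IH.isOpenMap.comp OnePoint.isOpenMap_coe)
  have h3 := hopen.image_mem_nhds hV
  refine mem_of_superset h3 ?_
  rintro _ ⟨s, ⟨hs1, hs2⟩, rfl⟩
  refine ⟨(s, p.2), ⟨hs1, ?_, ?_⟩, rfl⟩
  · rw [mem_closedBall_zero_iff]; exact hs2.le
  · rw [mem_closedBall_zero_iff]; exact h2

/-- The strict part of a fibre is dense in the fibre. -/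
theorem dense_strict (u v : ℂ) (hu : ‖u‖ = 1) (hv : ‖v‖ ≤ 2) :
    v ∈ closure {w : ℂ | ‖w‖ ≤ 2 ∧ 1 < ‖u + v - w‖} := by
  rcases lt_or_eq_of_le hv with hv | hv
  · have ht : Tendsto (fun δ : ℝ => v - (δ : ℂ) * u) (𝓝[>] 0) (𝓝 v) := by
      have c : Continuous (fun δ : ℝ => v - (δ : ℂ) * u) := by fun_prop
      have := (c.tendsto 0).mono_left (nhdsWithin_le_nhds (s := Ioi (0 : ℝ)))
      simpa using this
    refine mem_closure_of_tendsto ht ?_
    have c : ContinuousAt (fun δ : ℝ => ‖v - (δ : ℂ) * u‖) 0 := by fun_prop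
    have e := c.eventually_lt (continuousAt_const (y := (2 : ℝ))) (by simpa using hv)
    filter_upwards [nhdsWithin_le_nhds e, self_mem_nhdsWithin] with δ h1 h2
    refine ⟨h1.le, ?_⟩
    have h3 : u + v - (v - (δ : ℂ) * u) = ((1 + δ : ℝ) : ℂ) * u := by push_cast; ring
    have h2' : (0 : ℝ) < δ := h2
    rw [h3, norm_mul, hu, mul_one, Complex.norm_real, Real.norm_eq_abs, abs_of_pos (by linarith)]
    linarith
  · -- rotate `v`
    set m : ℂ := v * (starRingEnd ℂ) (u + v) with hm
    have hv2 : Complex.normSq v = 4 := by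
      rw [Complex.normSq_eq_norm_sq, hv]; norm_num
    have hre : 0 < m.re := by
      have h1 : m = v * (starRingEnd ℂ) u + (Complex.normSq v : ℂ) := by
        rw [hm, map_add, mul_add, Complex.mul_conj]
      have h2 : |(v * (starRingEnd ℂ) u).re| ≤ 2 := by
        refine (Complex.abs_re_le_norm _).trans ?_
        rw [norm_mul, hv, Complex.norm_conj, hu, mul_one]
      rw [h1, Complex.add_re, Complex.ofReal_re, hv2]
      have := (abs_le.1 h2).1
      linarith
    -- the norm after rotation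
    have key : ∀ φ : ℝ, ((Complex.exp (φ * Complex.I)) * m).re < m.re →
        1 < ‖u + v - Complex.exp (φ * Complex.I) * v‖ := by
      intro φ hφ
      have hn : ‖Complex.exp (φ * Complex.I)‖ = 1 := Complex.norm_exp_ofReal_mul_I φ
      set c := Complex.exp (φ * Complex.I) with hc
      have hcn : Complex.normSq c = 1 := by rw [Complex.normSq_eq_norm_sq, hn]; norm_num
      have e1 : Complex.normSq (u + v - c * v) =
          Complex.normSq (u + v) + Complex.normSq (c * v)
            - 2 * ((u + v) * (starRingEnd ℂ) (c * v)).re := by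
        rw [Complex.normSq_sub]
      have e2 : ((u + v) * (starRingEnd ℂ) (c * v)).re = (c * m).re := by
        have : (starRingEnd ℂ) ((u + v) * (starRingEnd ℂ) (c * v)) = c * m := by
          rw [map_mul, Complex.conj_conj, hm]; ring
        rw [← this, Complex.conj_re]
      have e3 : Complex.normSq (u + v) + Complex.normSq v - 2 * m.re = 1 := by
        have h5 : Complex.normSq (u + v - v) = 1 := by
          rw [add_sub_cancel_right, Complex.normSq_eq_norm_sq, hu]; norm_num
        rw [Complex.normSq_sub] at h5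
        have h6 : ((u + v) * (starRingEnd ℂ) v).re = m.re := by
          have : (starRingEnd ℂ) ((u + v) * (starRingEnd ℂ) v) = m := by
            rw [map_mul, Complex.conj_conj, hm]; ring
          rw [← this, Complex.conj_re]
        rw [h6] at h5
        exact h5
      have e4 : Complex.normSq (c * v) = Complex.normSq v := by
        rw [Complex.normSq_mul, hcn, one_mul]
      have h7 : 1 < Complex.normSq (u + v - c * v) := by
        rw [e1, e2, e4]; linarith
      rw [Complex.normSq_eq_norm_sq] at h7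
      by_contra hcon
      push Not at hcon
      have := norm_nonneg (u + v - c * v)
      nlinarith
    have hrot : ∀ φ : ℝ, ‖Complex.exp (φ * Complex.I) * v‖ ≤ 2 := by
      intro φ
      rw [norm_mul, Complex.norm_exp_ofReal_mul_I, one_mul, hv]
    have hre' : ∀ φ : ℝ, ((Complex.exp (φ * Complex.I)) * m).re =
        Real.cos φ * m.re - Real.sin φ * m.im := by
      intro φ
      rw [Complex.mul_re, Complex.exp_ofReal_mul_I_re, Complex.exp_ofReal_mul_I_im]
    have hc0 : Continuous (fun φ : ℝ => Complex.exp (φ * Complex.I) * v) := by fun_prop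
    rcases le_or_gt 0 m.im with him | him
    · have ht : Tendsto (fun φ : ℝ => Complex.exp (φ * Complex.I) * v) (𝓝[>] 0) (𝓝 v) := by
        have := (hc0.tendsto 0).mono_left (nhdsWithin_le_nhds (s := Ioi (0 : ℝ)))
        simpa using this
      refine mem_closure_of_tendsto ht ?_
      have e := (continuousAt_id (x := (0 : ℝ))).eventually_lt
        (continuousAt_const (y := Real.pi)) Real.pi_pos
      filter_upwards [nhdsWithin_le_nhds e, self_mem_nhdsWithin] with φ h1 h2
      have h2' : (0 : ℝ) < φ := h2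
      have h1' : φ < Real.pi := h1
      refine ⟨hrot φ, key φ ?_⟩
      rw [hre']
      have hcos : Real.cos φ < 1 := by
        have := Real.cos_lt_cos_of_nonneg_of_le_pi le_rfl h1'.le h2'
        rwa [Real.cos_zero] at this
      have hsin : 0 ≤ Real.sin φ := (Real.sin_pos_of_pos_of_lt_pi h2' h1').le
      nlinarith [mul_nonneg hsin him]
    · have ht : Tendsto (fun φ : ℝ => Complex.exp (φ * Complex.I) * v) (𝓝[<] 0) (𝓝 v) := by
        have := (hc0.tendsto 0).mono_left (nhdsWithin_le_nhds (s := Iio (0 : ℝ)))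
        simpa using this
      refine mem_closure_of_tendsto ht ?_
      have e := (continuousAt_const (y := -Real.pi)).eventually_lt
        (continuousAt_id (x := (0 : ℝ))) (neg_lt_zero.2 Real.pi_pos)
      filter_upwards [nhdsWithin_le_nhds e, self_mem_nhdsWithin] with φ h1 h2
      have h2' : φ < (0 : ℝ) := h2
      have h1' : -Real.pi < φ := h1
      refine ⟨hrot φ, key φ ?_⟩
      rw [hre']
      have hcos : Real.cos φ < 1 := by
        have := Real.cos_lt_cos_of_nonneg_of_le_pi le_rfl (by linarith : -φ ≤ Real.pi)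
          (by linarith : 0 < -φ)
        rwa [Real.cos_zero, Real.cos_neg] at this
      have hsin : Real.sin φ ≤ 0 := (Real.sin_neg_of_neg_of_neg_pi_lt h2' h1').le
      nlinarith [mul_nonneg_of_nonpos_of_nonpos hsin him.le]

/-- The map `q` restricted to the product of the two discs is open. -/
theorem open_q {p : ℂ × ℂ} (hp : p ∈ Dom) {U : Set (ℂ × ℂ)} (hU : U ∈ 𝓝 p) :
    q '' (U ∩ Dom) ∈ 𝓝 (q p) := by
  obtain ⟨h1, h2⟩ := hp
  rw [mem_closedBall_zero_iff] at h1 h2
  rcases lt_or_eq_of_le h1 with h1 | h1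
  · exact open_good h1 h2 hU
  · obtain ⟨s, v⟩ := p
    simp only at h1 h2
    have hs : s ≠ 0 := by
      intro h
      rw [h, norm_zero] at h1
      norm_num at h1
    have hu : ‖s⁻¹‖ = 1 := by rw [norm_inv, h1, inv_one]
    have hcl := dense_strict s⁻¹ v hu h2
    have hc : ContinuousAt (fun w : ℂ => ((s⁻¹ + v - w)⁻¹, w)) v := by
      apply ContinuousAt.prodMk _ continuousAt_id
      apply ContinuousAt.inv₀ (by fun_prop)
      rw [add_sub_cancel_right]
      exact inv_ne_zero hs
    have hval : ((s⁻¹ + v - v)⁻¹, v) = (s, v) := by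
      rw [add_sub_cancel_right, inv_inv]
    have hU' : interior U ∈ 𝓝 (s, v) := interior_mem_nhds.2 hU
    -- use the interior of `U` to get a neighbourhood of the new point
    have hpre' : (fun w : ℂ => ((s⁻¹ + v - w)⁻¹, w)) ⁻¹' (interior U) ∈ 𝓝 v := by
      apply hc.preimage_mem_nhds
      show interior U ∈ 𝓝 ((s⁻¹ + v - v)⁻¹, v)
      rw [hval]
      exact hU'
    obtain ⟨w, hwU, hw1, hw2⟩ := mem_closure_iff_nhds.1 hcl _ hpre'
    have hne : s⁻¹ + v - w ≠ 0 := by
      intro h
      rw [h, norm_zero] at hw2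
      linarith
    have hq : q ((s⁻¹ + v - w)⁻¹, w) = q (s, v) := by
      rw [q_ne (inv_ne_zero hne), q_ne hs, inv_inv, sub_add_cancel]
    have hwn : ‖((s⁻¹ + v - w)⁻¹ : ℂ)‖ < 1 := by
      rw [norm_inv]
      exact inv_lt_one_of_one_lt₀ hw2
    have h5 := open_good (p := ((s⁻¹ + v - w)⁻¹, w)) hwn hw1 (mem_interior_iff_mem_nhds.1 hwU)
    rw [hq] at h5
    exact h5

theorem q_injOn {p p' : ℂ × ℂ} (h1 : q p = q p') (h2 : p.2 = p'.2) : p = p' := by
  obtain ⟨s, v⟩ := p
  obtain ⟨s', v'⟩ := p'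
  simp only at h2
  subst h2
  have h3 : IH (s : OnePoint ℂ) = IH (s' : OnePoint ℂ) := (T v).injective h1
  have h4 := IH.injective h3
  rw [OnePoint.coe_eq_coe] at h4
  rw [h4]

theorem exists_homeo : ∃ H : EuclideanSpace ℝ (Fin 4) ≃ₜ ℂ × ℂ,
    H '' Metric.closedBall 0 1 = Dom := by
  have hfin : Module.finrank ℝ (EuclideanSpace ℝ (Fin 4)) = Module.finrank ℝ (ℂ × ℂ) := by
    rw [finrank_euclideanSpace, Module.finrank_prod, Complex.finrank_real_complex]
    rfl
  let L : EuclideanSpace ℝ (Fin 4) ≃L[ℝ] ℂ × ℂ := ContinuousLinearEquiv.ofFinrankEq hfin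
  have hcs : Convex ℝ (L '' Metric.closedBall 0 1) :=
    (convex_closedBall 0 1).linear_image L.toLinearMap
  have hclosed : IsClosed (L '' Metric.closedBall (0 : EuclideanSpace ℝ (Fin 4)) 1) :=
    (L.toHomeomorph.isClosed_image).2 Metric.isClosed_closedBall
  have hcomp : IsCompact (L '' Metric.closedBall (0 : EuclideanSpace ℝ (Fin 4)) 1) :=
    (isCompact_closedBall _ _).image L.continuous
  have hint : (interior (L '' Metric.closedBall (0 : EuclideanSpace ℝ (Fin 4)) 1)).Nonempty := by
    have h : L.toHomeomorph '' interior (Metric.closedBall (0 : EuclideanSpace ℝ (Fin 4)) 1) =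
        interior (L.toHomeomorph '' Metric.closedBall (0 : EuclideanSpace ℝ (Fin 4)) 1) :=
      L.toHomeomorph.image_interior _
    have h2 : (L.toHomeomorph ''
        interior (Metric.closedBall (0 : EuclideanSpace ℝ (Fin 4)) 1)).Nonempty := by
      apply Nonempty.image
      exact ⟨0, Metric.ball_subset_interior_closedBall (by simp)⟩
    rw [h] at h2
    exact h2
  have hDc : Convex ℝ Dom := (convex_closedBall _ _).prod (convex_closedBall _ _)
  have hDclosed : IsClosed Dom := Metric.isClosed_closedBall.prod Metric.isClosed_closedBall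
  have hDb : Bornology.IsBounded Dom := Metric.isBounded_closedBall.prod Metric.isBounded_closedBall
  have hDint : (interior Dom).Nonempty := by
    refine ⟨(0, 0), ?_⟩
    rw [Dom, interior_prod_eq]
    exact ⟨Metric.ball_subset_interior_closedBall (by simp),
      Metric.ball_subset_interior_closedBall (by simp)⟩
  obtain ⟨h, -, h2, -⟩ := exists_homeomorph_image_eq hcs hint
    (NormedSpace.isVonNBounded_of_isBounded ℝ hcomp.isBounded) hDc hDint
    (NormedSpace.isVonNBounded_of_isBounded ℝ hDb)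
  rw [hclosed.closure_eq, hDclosed.closure_eq] at h2
  refine ⟨L.toHomeomorph.trans h, ?_⟩
  rw [← h2, ← image_comp]
  rfl

/-- **There is an embedding of the closed 4-ball into `S² × ℝ²` such that the composition with the
projection to `S²` is an open map.** -/
theorem result : ∃ e : Metric.closedBall (0 : EuclideanSpace ℝ (Fin 4)) 1 →
      Metric.sphere (0 : EuclideanSpace ℝ (Fin 3)) 1 × EuclideanSpace ℝ (Fin 2),
    IsEmbedding e ∧ IsOpenMap (fun x => (e x).1) := by
  obtain ⟨H, hH⟩ := exists_homeo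
  have hfin : Module.finrank ℝ ℂ + 1 = Fintype.card (Fin 3) := by
    rw [Complex.finrank_real_complex, Fintype.card_fin]
  let Φ : OnePoint ℂ ≃ₜ Metric.sphere (0 : EuclideanSpace ℝ (Fin 3)) 1 :=
    onePointEquivSphereOfFinrankEq hfin
  have hfin2 : Module.finrank ℝ ℂ = Module.finrank ℝ (EuclideanSpace ℝ (Fin 2)) := by
    rw [Complex.finrank_real_complex, finrank_euclideanSpace, Fintype.card_fin]
  let ψ : ℂ ≃L[ℝ] EuclideanSpace ℝ (Fin 2) := ContinuousLinearEquiv.ofFinrankEq hfin2
  refine ⟨fun x => (Φ (q (H x)), ψ (H x).2), ?_, ?_⟩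
  · have hcont : Continuous (fun x : Metric.closedBall (0 : EuclideanSpace ℝ (Fin 4)) 1 =>
        (Φ (q (H x)), ψ (H x).2)) := by
      have c1 : Continuous (fun x : Metric.closedBall (0 : EuclideanSpace ℝ (Fin 4)) 1 => H x) :=
        H.continuous.comp continuous_subtype_val
      exact (Φ.continuous.comp (continuous_q.comp c1)).prodMk
        (ψ.continuous.comp (continuous_snd.comp c1))
    have hinj : Function.Injective (fun x : Metric.closedBall (0 : EuclideanSpace ℝ (Fin 4)) 1 =>
        (Φ (q (H x)), ψ (H x).2)) := by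
      intro x y hxy
      simp only [Prod.mk.injEq] at hxy
      have h1 := Φ.injective hxy.1
      have h2 := ψ.injective hxy.2
      exact Subtype.ext (H.injective (q_injOn h1 h2))
    have : CompactSpace (Metric.closedBall (0 : EuclideanSpace ℝ (Fin 4)) 1) :=
      isCompact_iff_compactSpace.1 (isCompact_closedBall _ _)
    exact (hcont.isClosedEmbedding hinj).isEmbedding
  · intro O hO
    obtain ⟨V, hV, rfl⟩ := isOpen_induced_iff.1 hO
    rw [isOpen_iff_mem_nhds]
    rintro _ ⟨x, hx, rfl⟩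
    have hxD : H x ∈ Dom := by
      rw [← hH]
      exact mem_image_of_mem _ x.2
    have hVn : H '' V ∈ 𝓝 (H x) := (H.isOpenMap V hV).mem_nhds (mem_image_of_mem _ hx)
    have h1 := open_q hxD hVn
    have h2 := Φ.isOpenMap.image_mem_nhds h1
    refine mem_of_superset h2 ?_
    rintro _ ⟨_, ⟨z, ⟨⟨a, haV, rfl⟩, hz⟩, rfl⟩, rfl⟩
    have ha : a ∈ Metric.closedBall (0 : EuclideanSpace ℝ (Fin 4)) 1 := by
      rw [← hH] at hz
      obtain ⟨b, hb, hb2⟩ := hz
      rwa [← H.injective hb2]
    exact ⟨⟨a, ha⟩, haV, rfl⟩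

end Pool.Agent.Results.MP_2fe121_gt.OpenEmbedding
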